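import Pool.Agent.helper65.T1.SpecN

/-!
# Project T1, row NFT: the Fejer kernel
-/

set_option autoImplicit false

open MeasureTheory

namespace Pool.Agent.T1

theorem NFT_nex (a t : ℝ) : Nex (a * t) = Complex.exp ((2 * Real.pi * a * Complex.I : ℂ) * (t : ℂ)) := by
  unfold Nex
  congr 1
  push_cast
  ring

theorem NFT_deriv (w : ℂ) (hw : w ≠ 0) (A σ t : ℝ) :
    HasDerivAt (fun x : ℝ => (1 + (σ : ℂ) * x / A) * Complex.exp (w * x) / w - (σ : ℂ) / A * Complex.exp (w * x) / w ^ 2)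
      ((1 + (σ : ℂ) * t / A) * Complex.exp (w * t)) t := by
  have h1 : HasDerivAt (fun x : ℝ => (x : ℂ)) 1 t := Complex.ofRealCLM.hasDerivAt
  have h2 : HasDerivAt (fun x : ℝ => Complex.exp (w * x)) (Complex.exp (w * t) * (w * 1)) t := (h1.const_mul w).cexp
  have h3 : HasDerivAt (fun x : ℝ => 1 + (σ : ℂ) * x / A) ((σ : ℂ) * 1 / A) t := ((h1.const_mul (σ : ℂ)).div_const (A : ℂ)).const_add 1
  have h4 := ((h3.mul h2).div_const w).sub ((h2.const_mul ((σ : ℂ) / A)).div_const (w ^ 2))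
  refine h4.congr_deriv ?_
  field_simp
  ring

theorem NFT_int (w : ℂ) (hw : w ≠ 0) (A σ x y : ℝ) :
    ∫ t in x..y, (1 + (σ : ℂ) * t / A) * Complex.exp (w * t) =
      ((1 + (σ : ℂ) * y / A) * Complex.exp (w * y) / w - (σ : ℂ) / A * Complex.exp (w * y) / w ^ 2) -
      ((1 + (σ : ℂ) * x / A) * Complex.exp (w * x) / w - (σ : ℂ) / A * Complex.exp (w * x) / w ^ 2) := by
  refine intervalIntegral.integral_eq_sub_of_hasDerivAt (fun t _ => NFT_deriv w hw A σ t) ?_
  refine Continuous.intervalIntegrable ?_ _ _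
  fun_prop

theorem NFT_proof : NFT_stmt := by
  intro A hA a
  have hAc : (A : ℂ) ≠ 0 := by exact_mod_cast hA.ne'
  have hcont : Continuous (fun t : ℝ => ((1 - |t| / A : ℝ) : ℂ) * Nex (a * t)) := by
    unfold Nex
    fun_prop
  have hsplit : ∫ t in (-A)..A, ((1 - |t| / A : ℝ) : ℂ) * Nex (a * t) =
      (∫ t in (-A)..0, ((1 - |t| / A : ℝ) : ℂ) * Nex (a * t)) + ∫ t in (0 : ℝ)..A, ((1 - |t| / A : ℝ) : ℂ) * Nex (a * t) :=
    (intervalIntegral.integral_add_adjacent_intervals (hcont.intervalIntegrable _ _) (hcont.intervalIntegrable _ _)).symm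
  have hneg : (∫ t in (-A)..0, ((1 - |t| / A : ℝ) : ℂ) * Nex (a * t)) =
      ∫ t in (-A)..0, (1 + ((1 : ℝ) : ℂ) * t / A) * Complex.exp ((2 * Real.pi * a * Complex.I : ℂ) * (t : ℂ)) := by
    refine intervalIntegral.integral_congr fun t ht => ?_
    rw [Set.uIcc_of_le (by linarith)] at ht
    rw [abs_of_nonpos ht.2, NFT_nex]
    push_cast
    ring
  have hpos : (∫ t in (0 : ℝ)..A, ((1 - |t| / A : ℝ) : ℂ) * Nex (a * t)) =
      ∫ t in (0 : ℝ)..A, (1 + ((-1 : ℝ) : ℂ) * t / A) * Complex.exp ((2 * Real.pi * a * Complex.I : ℂ) * (t : ℂ)) := by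
    refine intervalIntegral.integral_congr fun t ht => ?_
    rw [Set.uIcc_of_le hA.le] at ht
    rw [abs_of_nonneg ht.1, NFT_nex]
    push_cast
    ring
  rw [hsplit, hneg, hpos]
  by_cases ha : a = 0
  · refine ⟨A, hA.le, le_rfl, ?_, ?_⟩
    · rw [ha]
      norm_num
    · have h1 : ∀ σ x y : ℝ, ∫ t in x..y, (1 + (σ : ℂ) * t / A) * Complex.exp ((2 * Real.pi * a * Complex.I : ℂ) * (t : ℂ)) =
          (((y + σ * y ^ 2 / (2 * A)) - (x + σ * x ^ 2 / (2 * A)) : ℝ) : ℂ) := by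
        intro σ x y
        have h2 : ∀ t : ℝ, HasDerivAt (fun x : ℝ => (x : ℂ) + (σ : ℂ) * (x : ℂ) ^ 2 / (2 * A))
            ((1 + (σ : ℂ) * t / A) * Complex.exp ((2 * Real.pi * a * Complex.I : ℂ) * (t : ℂ))) t := by
          intro t
          have h1 : HasDerivAt (fun x : ℝ => (x : ℂ)) 1 t := Complex.ofRealCLM.hasDerivAt
          have h3 := h1.add (((h1.pow 2).const_mul (σ : ℂ)).div_const (2 * (A : ℂ)))
          refine h3.congr_deriv ?_
          rw [ha]
          simp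
          field_simp
        rw [intervalIntegral.integral_eq_sub_of_hasDerivAt (fun t _ => h2 t) (Continuous.intervalIntegrable (by fun_prop) _ _)]
        push_cast
        ring
      rw [h1, h1, ← Complex.ofReal_add]
      congr 1
      field_simp
      ring
  · have hπ : 0 < Real.pi := Real.pi_pos
    have hw : (2 * Real.pi * a * Complex.I : ℂ) ≠ 0 := by
      have h1 : (Real.pi : ℂ) ≠ 0 := by exact_mod_cast hπ.ne'
      have h2 : (a : ℂ) ≠ 0 := by exact_mod_cast ha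
      simp [h1, h2]
    have ha2 : 0 < a ^ 2 := by positivity
    have hden : 0 < 2 * Real.pi ^ 2 * a ^ 2 * A := by positivity
    refine ⟨(1 - Real.cos (2 * Real.pi * a * A)) / (2 * Real.pi ^ 2 * a ^ 2 * A), ?_, ?_, ?_, ?_⟩
    · exact div_nonneg (by linarith [Real.cos_le_one (2 * Real.pi * a * A)]) hden.le
    · rw [div_le_iff₀ hden]
      have := Real.one_sub_sq_div_two_le_cos (x := 2 * Real.pi * a * A)
      nlinarith
    · have h1 : (1 - Real.cos (2 * Real.pi * a * A)) / (2 * Real.pi ^ 2 * a ^ 2 * A) * a ^ 2 * A =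
          (1 - Real.cos (2 * Real.pi * a * A)) / (2 * Real.pi ^ 2) := by
        field_simp
      rw [h1, div_le_one (by positivity)]
      have h2 := Real.neg_one_le_cos (2 * Real.pi * a * A)
      have h3 := Real.pi_gt_three
      nlinarith
    · rw [NFT_int _ hw, NFT_int _ hw]
      set w : ℂ := 2 * Real.pi * a * Complex.I with hwdef
      have hcos : Complex.exp (w * A) + Complex.exp (w * ((-A : ℝ) : ℂ)) = 2 * ((Real.cos (2 * Real.pi * a * A) : ℝ) : ℂ) := by
        rw [Complex.ofReal_cos, Complex.two_cos]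
        congr 1
        · congr 1
          rw [hwdef]
          push_cast
          ring
        · congr 1
          rw [hwdef]
          push_cast
          ring
      have hw2 : w ^ 2 = -(4 * (Real.pi : ℂ) ^ 2 * (a : ℂ) ^ 2) := by
        rw [hwdef, mul_pow, Complex.I_sq]
        ring
      have hsum : ((1 + ((1 : ℝ) : ℂ) * ((0 : ℝ) : ℂ) / A) * Complex.exp (w * ((0 : ℝ) : ℂ)) / w - ((1 : ℝ) : ℂ) / A * Complex.exp (w * ((0 : ℝ) : ℂ)) / w ^ 2) -
          ((1 + ((1 : ℝ) : ℂ) * ((-A : ℝ) : ℂ) / A) * Complex.exp (w * ((-A : ℝ) : ℂ)) / w - ((1 : ℝ) : ℂ) / A * Complex.exp (w * ((-A : ℝ) : ℂ)) / w ^ 2) +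
          (((1 + ((-1 : ℝ) : ℂ) * A / A) * Complex.exp (w * A) / w - ((-1 : ℝ) : ℂ) / A * Complex.exp (w * A) / w ^ 2) -
          ((1 + ((-1 : ℝ) : ℂ) * ((0 : ℝ) : ℂ) / A) * Complex.exp (w * ((0 : ℝ) : ℂ)) / w - ((-1 : ℝ) : ℂ) / A * Complex.exp (w * ((0 : ℝ) : ℂ)) / w ^ 2)) =
          ((Complex.exp (w * A) + Complex.exp (w * ((-A : ℝ) : ℂ))) - 2) / (A * w ^ 2) := by
        rw [Complex.ofReal_zero, mul_zero w, Complex.exp_zero]
        push_cast
        field_simp
        ring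
      rw [hsum, hcos, hw2]
      push_cast
      have h1 : (Real.pi : ℂ) ≠ 0 := by exact_mod_cast hπ.ne'
      have h2 : (a : ℂ) ≠ 0 := by exact_mod_cast ha
      field_simp
      ring

end Pool.Agent.T1
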